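import Pool.Agent.Helper41.SQC.Goals

/-!
Project SQ-C (MP_bb32d1_al), packet SQC-LFT: `Lhat deltat(F_k) = oF_k Lhat`.
-/

set_option autoImplicit false

namespace Pool.Agent.Helper25.SQC

noncomputable section

open Pool.Agent.Helper19.SQ Pool.Agent.Helper41.SQC Matrix

variable {R : Type} [Ring R] [Algebra ℂ R]

theorem rv_base (q : ℂ) (E : ℕ → R) (k : ℕ) : rv q E k (k + 1) = E k := by
  unfold rv
  rw [Nat.add_sub_cancel_left]
  rfl

/-- the entries of the identity. -/
theorem l2t (hCM : S_CM1T) (hKW : S_KWT) (N l : ℕ) (q : ℂ) (κ κi E F K : ℕ → R)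
    (hP : Par N l q) (hκ : ∀ i x, κ i * x = x * κ i) (hκi : ∀ i x, κi i * x = x * κi i)
    (hκκ : ∀ i, κ i * κi i = 1)
    (hG : GlT N l q (fun k => κ k * κi (k + 1)) (fun k => κi k * κ (k + 1)) E F K)
    (k a b : ℕ) (hk : k < N) (ha : a ≤ N) (_hb : b ≤ N) :
    κ a * Lent q E K a b * F k
        + (if b = k then κ a * Lent q E K a (k + 1)
            * (κi k * κ (k + 1) * (K (k + 1) * ki l K k)) else 0) =
      q ^ (-pr a k) • (F k * (κ a * Lent q E K a b))
        + (if a = k + 1 then κ k * Lent q E K k b else 0) := by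
  have kc1 : ∀ p, K p * ki l K p = 1 := fun p => (hKW R N l q _ _ E F K hP hG p 0 1 (by omega)).2.2.1
  have kc3 : ∀ p r, K p * ki l K r = ki l K r * K p := fun p r =>
    (hKW R N l q _ _ E F K hP hG p 0 1 (by omega)).2.2.2 r
  have kc2 : ∀ p, ki l K p * K p = 1 := fun p => by rw [← kc3, kc1]
  obtain ⟨cm1, cm2, cm3⟩ := hCM R N l q _ _ E F K hP hG
  have hq : q ≠ 0 := hP.prim.ne_zero (by have := hP.h3; omega)
  have hq2 : q - q⁻¹ ≠ 0 := by
    intro h
    have h1 : q ^ 2 = 1 := by
      have := congrArg (fun x => x * q) h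
      simp only [sub_mul, zero_mul, inv_mul_cancel₀ hq] at this
      rw [pow_two]
      linear_combination this
    have h2 := (hP.prim.pow_eq_one_iff_dvd 2).1 h1
    have h3 := Nat.le_of_dvd (by norm_num) h2
    have := hP.h3
    omega
  have hFκ : ∀ i x, F k * (κ i * x) = κ i * (F k * x) := fun i x => by
    rw [← mul_assoc, ← hκ i (F k), mul_assoc]
  rcases lt_trichotomy a b with hab | hab | hab
  · -- a < b
    have h1 : Lent q E K a b = 0 := by
      unfold Lent
      rw [if_neg hab.ne, if_neg (not_lt.2 hab.le)]
    have h2 : (if b = k then κ a * Lent q E K a (k + 1)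
        * (κi k * κ (k + 1) * (K (k + 1) * ki l K k)) else 0) = (0 : R) := by
      split_ifs with h
      · unfold Lent
        rw [if_neg (by omega), if_neg (by omega), mul_zero, zero_mul]
      · rfl
    have h3 : (if a = k + 1 then κ k * Lent q E K k b else 0) = (0 : R) := by
      split_ifs with h
      · unfold Lent
        rw [if_neg (by omega), if_neg (by omega), mul_zero]
      · rfl
    rw [h1, h2, h3, mul_zero, zero_mul, mul_zero, smul_zero]
  · subst hab
    have h1 : Lent q E K a a = K a := by
      unfold Lent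
      rw [if_pos rfl]
    have h2 : (if a = k then κ a * Lent q E K a (k + 1)
        * (κi k * κ (k + 1) * (K (k + 1) * ki l K k)) else 0) = (0 : R) := by
      split_ifs with h
      · unfold Lent
        rw [if_neg (by omega), if_neg (by omega), mul_zero, zero_mul]
      · rfl
    have h3 : (if a = k + 1 then κ k * Lent q E K k a else 0) = (0 : R) := by
      split_ifs with h
      · unfold Lent
        rw [if_neg (by omega), if_neg (by omega), mul_zero]
      · rfl
    rw [h1, h2, h3, add_zero, add_zero, mul_assoc, hG.KF, hFκ, mul_smul_comm]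
  · have h1 : Lent q E K a b = (1 - q⁻¹ ^ 2) • (rv q E b a * K a) := by
      unfold Lent
      rw [if_neg (by omega), if_pos hab]
    have h2 : κ a * Lent q E K a b * F k =
        q ^ (-pr a k) • ((1 - q⁻¹ ^ 2) • (κ a * (rv q E b a * F k * K a))) := by
      rw [h1, mul_smul_comm, smul_mul_assoc, mul_assoc (κ a), mul_assoc (rv q E b a), hG.KF,
        mul_smul_comm, mul_smul_comm, smul_comm, ← mul_assoc (rv q E b a) (F k) (K a)]
    have h3 : F k * (κ a * Lent q E K a b)
        = (1 - q⁻¹ ^ 2) • (κ a * (F k * rv q E b a * K a)) := by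
      rw [h1, hFκ, mul_smul_comm, mul_smul_comm, mul_assoc]
    rw [h2, h3]
    by_cases hbk : b = k
    · subst hbk
      rw [if_pos rfl]
      by_cases hak : a = b + 1
      · subst hak
        rw [if_pos rfl, rv_base]
        have h4 : Lent q E K (b + 1) (b + 1) = K (b + 1) := by
          unfold Lent
          rw [if_pos rfl]
        have h5 : Lent q E K b b = K b := by
          unfold Lent
          rw [if_pos rfl]
        rw [h4, h5]
        have h6 : E b * F b = F b * E b + (q - q⁻¹)⁻¹ •
            (κ b * κi (b + 1) * (K b * ki l K (b + 1))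
              - κi b * κ (b + 1) * (ki l K b * K (b + 1))) := by
          have := hG.EF b hk
          unfold ki
          rw [← this]
          abel
        have hpr : -pr (b + 1) b = 1 := by
          unfold pr
          rw [if_neg (by omega), if_pos rfl]
          norm_num
        have hc : q * ((1 - q⁻¹ ^ 2) * (q - q⁻¹)⁻¹) = 1 := by
          rw [← mul_assoc]
          have : q * (1 - q⁻¹ ^ 2) = q - q⁻¹ := by
            rw [pow_two, mul_sub, mul_one, ← mul_assoc, mul_inv_cancel₀ hq, one_mul]
          rw [this, mul_inv_cancel₀ hq2]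
        have h7 : κ (b + 1) * (κ b * κi (b + 1) * (K b * ki l K (b + 1)) * K (b + 1))
            = κ b * K b := by
          calc κ (b + 1) * (κ b * κi (b + 1) * (K b * ki l K (b + 1)) * K (b + 1))
              = (κ (b + 1) * κ b) * κi (b + 1) * (K b * (ki l K (b + 1) * K (b + 1))) := by
                simp only [mul_assoc]
            _ = κ b * (κ (b + 1) * κi (b + 1)) * (K b * (ki l K (b + 1) * K (b + 1))) := by
                rw [hκ (b + 1) (κ b), mul_assoc (κ b)]
            _ = κ b * K b := by rw [hκκ, kc2, mul_one, mul_one]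
        have h8 : κ (b + 1) * (κi b * κ (b + 1) * (ki l K b * K (b + 1)) * K (b + 1)) =
            κ (b + 1) * K (b + 1) * (κi b * κ (b + 1) * (K (b + 1) * ki l K b)) := by
          have e0 : ∀ x, κi b * κ (b + 1) * x = x * (κi b * κ (b + 1)) := fun x => by
            rw [mul_assoc, hκ (b + 1) x, ← mul_assoc, hκi b x, mul_assoc]
          have e1 : K (b + 1) * (κi b * κ (b + 1) * (K (b + 1) * ki l K b))
              = κi b * κ (b + 1) * (K (b + 1) * (K (b + 1) * ki l K b)) := by
            rw [← mul_assoc (K (b + 1)), ← e0 (K (b + 1)), mul_assoc (κi b * κ (b + 1))]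
          rw [mul_assoc (κ (b + 1)), e1, ← kc3 (b + 1) b, mul_assoc (κi b * κ (b + 1)),
            mul_assoc (K (b + 1)), ← kc3 (b + 1) b]
        rw [hpr, zpow_one, h6, add_mul, mul_add, smul_mul_assoc, mul_smul_comm, sub_mul, mul_sub,
          smul_add, smul_add, smul_smul (1 - q⁻¹ ^ 2) (q - q⁻¹)⁻¹,
          smul_smul q ((1 - q⁻¹ ^ 2) * (q - q⁻¹)⁻¹), hc, one_smul, h7, h8]
        abel
      · rw [if_neg hak, add_zero]
        have h4 : Lent q E K a (b + 1) = (1 - q⁻¹ ^ 2) • (rv q E (b + 1) a * K a) := by
          unfold Lent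
          rw [if_neg hak, if_pos (by omega)]
        have h5 : rv q E b a * F b = F b * rv q E b a
            - κi b * κ (b + 1) * (rv q E (b + 1) a * kk l K (b + 1) b) := by
          have := cm2 b a (by omega) ha
          rw [sub_eq_iff_eq_add] at this
          rw [this]
          abel
        have hpr : -pr a b = 0 := by
          unfold pr
          rw [if_neg (by omega), if_neg hak]
          norm_num
        have h6 : κ a * (κi b * κ (b + 1) * (rv q E (b + 1) a * kk l K (b + 1) b) * K a) =
            κ a * (rv q E (b + 1) a * K a) * (κi b * κ (b + 1) * (K (b + 1) * ki l K b)) := by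
          have e0 : ∀ x, κi b * κ (b + 1) * x = x * (κi b * κ (b + 1)) := fun x => by
            rw [mul_assoc, hκ (b + 1) x, ← mul_assoc, hκi b x, mul_assoc]
          have e1 : K (b + 1) * ki l K b * K a = K a * (K (b + 1) * ki l K b) := by
            rw [mul_assoc, ← kc3 a b, ← mul_assoc, hG.K_comm (b + 1) a, mul_assoc]
          unfold kk
          rw [mul_assoc (κ a), mul_assoc (κi b * κ (b + 1)), mul_assoc (rv q E (b + 1) a), e1,
            ← mul_assoc (rv q E (b + 1) a), ← mul_assoc (κi b * κ (b + 1)),
            e0 (rv q E (b + 1) a * K a), mul_assoc (rv q E (b + 1) a * K a)]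
        rw [hpr, zpow_zero, one_smul, one_smul, h4, h5, sub_mul, mul_sub, smul_sub, mul_smul_comm,
          smul_mul_assoc, h6]
        abel
    · rw [if_neg hbk, add_zero]
      by_cases hak : a = k + 1
      · subst hak
        rw [if_pos rfl]
        have hbk' : b < k := by omega
        have h4 : Lent q E K k b = (1 - q⁻¹ ^ 2) • (rv q E b k * K k) := by
          unfold Lent
          rw [if_neg (by omega), if_pos hbk']
        have h5 : rv q E b (k + 1) * F k = F k * rv q E b (k + 1) +
            q⁻¹ • (κ k * κi (k + 1) * (rv q E b k * kk l K k (k + 1))) := by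
          have := cm3 b k hbk' (by omega)
          rw [← this]
          abel
        have hpr : -pr (k + 1) k = 1 := by
          unfold pr
          rw [if_neg (by omega), if_pos rfl]
          norm_num
        have h6 : κ (k + 1) * (κ k * κi (k + 1) * (rv q E b k * kk l K k (k + 1)) * K (k + 1))
            = κ k * (rv q E b k * K k) := by
          unfold kk
          calc κ (k + 1) * (κ k * κi (k + 1) * (rv q E b k * (K k * ki l K (k + 1))) * K (k + 1))
              = (κ (k + 1) * κ k) * κi (k + 1)
                * (rv q E b k * (K k * (ki l K (k + 1) * K (k + 1)))) := by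
                simp only [mul_assoc]
            _ = κ k * (κ (k + 1) * κi (k + 1))
                * (rv q E b k * (K k * (ki l K (k + 1) * K (k + 1)))) := by
                rw [hκ (k + 1) (κ k), mul_assoc (κ k)]
            _ = κ k * (rv q E b k * K k) := by rw [hκκ, kc2, mul_one, mul_one]
        rw [hpr, zpow_one, h4, h5, add_mul, mul_add, smul_mul_assoc, mul_smul_comm, h6, smul_add,
          smul_add, smul_comm (1 - q⁻¹ ^ 2) q⁻¹, smul_smul q q⁻¹, mul_inv_cancel₀ hq, one_smul,
          mul_smul_comm]
      · rw [if_neg hak, add_zero]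
        rw [cm1 b a k hab ha (fun h => hbk h.symm) (fun h => hak h.symm)]

/-- LFT. -/
theorem c_lft (hCM : S_CM1T) (hKW : S_KWT) (_hR : S_ROOT) : S_LFT := by
  intro R _ _ N l q κ κi E F K hP hκ hκi hκκ hG k
  ext a b
  rw [Matrix.mul_apply, Matrix.mul_apply]
  simp only [dFt, oF, Matrix.of_apply]
  have hL : ∑ c : Fin (N + 1), κ (a : ℕ) * Lent q E K (a : ℕ) (c : ℕ) *
      ((if c = b then F k else 0) +
        (if (c : ℕ) = k + 1 ∧ (b : ℕ) = k then κi k * κ (k + 1) * (K (k + 1) * ki l K k)
          else 0)) =
      κ a * Lent q E K a b * F k + (if k < N ∧ (b : ℕ) = k then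
        κ a * Lent q E K a (k + 1) * (κi k * κ (k + 1) * (K (k + 1) * ki l K k)) else 0) := by
    simp only [mul_add, Finset.sum_add_distrib]
    congr 1
    · rw [Finset.sum_eq_single b]
      · rw [if_pos rfl]
      · intro c _ hc
        rw [if_neg hc, mul_zero]
      · intro h
        exact absurd (Finset.mem_univ _) h
    · split_ifs with h
      · rw [Finset.sum_eq_single (⟨k + 1, by omega⟩ : Fin (N + 1))]
        · rw [if_pos ⟨rfl, h.2⟩]
        · intro c _ hc
          rw [if_neg, mul_zero]
          rintro ⟨h1, _⟩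
          exact hc (Fin.ext h1)
        · intro h
          exact absurd (Finset.mem_univ _) h
      · apply Finset.sum_eq_zero
        intro c _
        rw [if_neg, mul_zero]
        rintro ⟨h1, h2⟩
        apply h
        refine ⟨?_, h2⟩
        have := c.2
        omega
  have hR : ∑ c : Fin (N + 1), ((if a = c then q ^ (-pr (a : ℕ) k) • F k else 0) +
        (if (a : ℕ) = k + 1 ∧ (c : ℕ) = k then 1 else 0))
          * (κ (c : ℕ) * Lent q E K (c : ℕ) (b : ℕ)) =
      q ^ (-pr (a : ℕ) k) • (F k * (κ a * Lent q E K a b)) +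
        (if (a : ℕ) = k + 1 then κ k * Lent q E K k b else 0) := by
    simp only [add_mul, Finset.sum_add_distrib]
    congr 1
    · rw [Finset.sum_eq_single a]
      · rw [if_pos rfl, smul_mul_assoc]
      · intro c _ hc
        rw [if_neg (fun h => hc h.symm), zero_mul]
      · intro h
        exact absurd (Finset.mem_univ _) h
    · split_ifs with h
      · have ha := a.2
        rw [Finset.sum_eq_single (⟨k, by omega⟩ : Fin (N + 1))]
        · rw [if_pos ⟨h, rfl⟩, one_mul]
        · intro c _ hc
          rw [if_neg, zero_mul]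
          rintro ⟨_, h1⟩
          exact hc (Fin.ext h1)
        · intro h
          exact absurd (Finset.mem_univ _) h
      · apply Finset.sum_eq_zero
        intro c _
        rw [if_neg, zero_mul]
        rintro ⟨h1, _⟩
        exact h h1
  rw [hL, hR]
  have ha := a.2
  have hb := b.2
  by_cases hk : k < N
  · have h := l2t hCM hKW N l q κ κi E F K hP hκ hκi hκκ hG k a b hk (by omega) (by omega)
    rw [← h]
    congr 1
    by_cases h' : (b : ℕ) = k
    · rw [if_pos ⟨hk, h'⟩, if_pos h']
    · rw [if_neg (fun h => h' h.2), if_neg h']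
  · have hF : F k = 0 := hG.F_out k (by omega)
    rw [hF, if_neg (fun h => hk h.1), if_neg (by omega), mul_zero, zero_mul, smul_zero]

end

end Pool.Agent.Helper25.SQC
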